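import Pool.Agent.E8helper61.SI.Stm2

/-!
# SI2 / H1 (helper87)
-/

set_option autoImplicit false

open Finset

namespace Pool.Agent.E8helper87.SI

open Pool.Agent.E8helper61.SI

lemma choose_add_le (r a : ℕ) : (r + a).choose r ≤ (r + 1) ^ a := by
  induction a with
  | zero => simp
  | succ a ih =>
    have h : (a + 1) * (r + (a + 1)).choose (a + 1) = (r + a + 1) * (r + a).choose a := by
      have := Nat.add_one_mul_choose_eq (r + a) a
      rw [show r + (a + 1) = r + a + 1 by ring]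
      linarith
    have hs1 : (r + (a + 1)).choose r = (r + (a + 1)).choose (a + 1) := by
      rw [← Nat.choose_symm (Nat.le_add_left (a + 1) r)]
      congr 1
      omega
    have hs2 : (r + a).choose r = (r + a).choose a := by
      rw [← Nat.choose_symm (Nat.le_add_left a r)]
      congr 1
      omega
    rw [hs1]
    have h2 : (r + a + 1) ≤ (r + 1) * (a + 1) := by nlinarith
    have h3 : (a + 1) * (r + (a + 1)).choose (a + 1) ≤ (a + 1) * (r + 1) ^ (a + 1) := by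
      rw [h, ← hs2]
      calc (r + a + 1) * (r + a).choose r ≤ ((r + 1) * (a + 1)) * (r + 1) ^ a :=
            Nat.mul_le_mul h2 ih
        _ = (a + 1) * (r + 1) ^ (a + 1) := by ring
    exact Nat.le_of_mul_le_mul_left h3 (Nat.succ_pos a)

theorem h1 : H1Statement := by
  intro hPW hBSP ε hε hε2
  obtain ⟨hB1, _⟩ := hBSP
  set k := ⌈10 / ε⌉₊ with hk
  have hs2 : (1 : ℝ) < √2 := by
    rw [Real.lt_sqrt (by norm_num)]; norm_num
  have ht := tendsto_pow_const_div_const_pow_of_one_lt (k + 1) hs2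
  have hev := ht.eventually (gt_mem_nhds (show (0 : ℝ) < 1 / 4 by norm_num))
  obtain ⟨N, hN⟩ := Filter.eventually_atTop.mp hev
  refine ⟨k, max N (max 1 ⌈1 / ε⌉₊), ?_⟩
  intro r n hr hn a ha har
  have hrN : N ≤ r := le_trans (le_max_left _ _) hr
  have hr1 : 1 ≤ r := le_trans (le_trans (le_max_left _ _) (le_max_right _ _)) hr
  have hrε : 1 / ε ≤ (r : ℝ) := le_trans (Nat.le_ceil _)
    (by exact_mod_cast le_trans (le_trans (le_max_right _ _) (le_max_right _ _)) hr)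
  have hrε' : 1 ≤ ε * r := by
    rw [div_le_iff₀ hε] at hrε
    linarith
  have hkε : 10 / ε ≤ (k : ℝ) := Nat.le_ceil _
  -- the power of the first term
  have hθ : (n : ℝ) ≤ (2 : ℝ) ^ (((r : ℝ) - 1) / 2 - (ε * r - 1 / 2)) := by
    have : ((r : ℝ) - 1) / 2 - (ε * r - 1 / 2) = (1 / 2 - ε) * r := by ring
    rw [this]; exact hn
  have hpw : ∀ j ∈ Ioc k r, pw n r j ≤ 2 ^ r * ((2 : ℝ) ^ (5 * r))⁻¹ := by
    intro j hj
    rw [mem_Ioc] at hj
    have h1 := hPW n r j (ε * r - 1 / 2) hj.2 hθ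
    have h2 : (2 : ℝ) ^ (-((ε * r - 1 / 2) * j)) ≤ ((2 : ℝ) ^ (5 * r))⁻¹ := by
      rw [← Real.rpow_natCast, ← Real.rpow_neg (by norm_num)]
      apply Real.rpow_le_rpow_of_exponent_le (by norm_num)
      have h3 : 10 / ε ≤ (j : ℝ) := le_trans hkε (by exact_mod_cast hj.1.le)
      have h4 : ε * r / 2 ≤ ε * r - 1 / 2 := by linarith
      have h5 : ε * r / 2 * (10 / ε) ≤ (ε * r - 1 / 2) * j :=
        mul_le_mul h4 h3 (by positivity) (by linarith)
      have h6 : ε * r / 2 * (10 / ε) = 5 * r := by field_simp; ring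
      push_cast
      linarith
    have h7 : pw n r j ≤ 2 ^ r * ((n : ℝ) ^ j / 2 ^ (j * (r - j) + j.choose 2)) := by
      unfold pw
      rw [← mul_div_assoc]
      apply div_le_div_of_nonneg_right _ (by positivity)
      have h8 : ((r.choose j : ℕ) : ℝ) ≤ 2 ^ r := by exact_mod_cast Nat.choose_le_two_pow r j
      have h9 : (((n - r).choose j : ℕ) : ℝ) ≤ (n : ℝ) ^ j := by
        have h10 := Nat.choose_le_pow (n - r) j
        have h11 : (n - r) ^ j ≤ n ^ j := Nat.pow_le_pow_left (Nat.sub_le _ _) _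
        exact_mod_cast h10.trans h11
      exact mul_le_mul h8 h9 (by positivity) (by positivity)
    refine h7.trans ?_
    exact mul_le_mul_of_nonneg_left (h1.trans h2) (by positivity)
  have hC1 : (((r + a).choose r : ℕ) : ℝ) ≤ 2 ^ (2 * r) := by
    have h1 := Nat.choose_le_two_pow (r + a) r
    have h2 : 2 ^ (r + a) ≤ 2 ^ (2 * r) := Nat.pow_le_pow_right (by norm_num) (by omega)
    exact_mod_cast h1.trans h2
  have hrr : (r : ℝ) ≤ 2 ^ r := by exact_mod_cast (Nat.lt_two_pow_self (n := r)).le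
  have hsum : ∑ j ∈ Ioc k r, pw n r j ≤ 2 ^ r * (2 ^ r * ((2 : ℝ) ^ (5 * r))⁻¹) := by
    calc ∑ j ∈ Ioc k r, pw n r j ≤ ∑ j ∈ Ioc k r, 2 ^ r * ((2 : ℝ) ^ (5 * r))⁻¹ := sum_le_sum hpw
      _ = ((Ioc k r).card : ℝ) * (2 ^ r * ((2 : ℝ) ^ (5 * r))⁻¹) := by
          rw [sum_const, nsmul_eq_mul]
      _ ≤ _ := by
          apply mul_le_mul_of_nonneg_right _ (by positivity)
          refine le_trans ?_ hrr
          rw [Nat.card_Ioc]
          exact_mod_cast Nat.sub_le _ _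
  have hpart1 : (((r + a).choose r : ℕ) : ℝ) * ∑ j ∈ Ioc k r, pw n r j ≤ 1 / 2 := by
    have h0 : 0 ≤ ∑ j ∈ Ioc k r, pw n r j := by
      apply sum_nonneg
      intro j _
      unfold pw
      positivity
    calc (((r + a).choose r : ℕ) : ℝ) * ∑ j ∈ Ioc k r, pw n r j
        ≤ 2 ^ (2 * r) * (2 ^ r * (2 ^ r * ((2 : ℝ) ^ (5 * r))⁻¹)) :=
          mul_le_mul hC1 hsum h0 (by positivity)
      _ = ((2 : ℝ) ^ r)⁻¹ := by
          have : (2 : ℝ) ^ (5 * r) = 2 ^ (2 * r) * 2 ^ r * 2 ^ r * 2 ^ r := by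
            rw [← pow_add, ← pow_add, ← pow_add]; congr 1; ring
          rw [this]
          field_simp
      _ ≤ 1 / 2 := by
          rw [one_div]
          apply inv_anti₀ (by norm_num)
          calc (2 : ℝ) = 2 ^ 1 := (pow_one _).symm
            _ ≤ 2 ^ r := pow_le_pow_right₀ (by norm_num) hr1
  -- the second term
  have hsq : √2 ^ r * √2 ^ r = (2 : ℝ) ^ r := by
    rw [← mul_pow, Real.mul_self_sqrt (by norm_num)]
  have hs0 : (0 : ℝ) < √2 ^ r := by positivity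
  have hn2 : (n : ℝ) ≤ √2 ^ r := by
    refine hn.trans ?_
    have : √2 ^ r = (2 : ℝ) ^ ((1 / 2 : ℝ) * r) := by
      rw [Real.sqrt_eq_rpow, ← Real.rpow_natCast, ← Real.rpow_mul (by norm_num)]
    rw [this]
    apply Real.rpow_le_rpow_of_exponent_le (by norm_num)
    have : 0 ≤ ε * r := by positivity
    nlinarith
  have hbase : ((r : ℝ) + 1) ^ (k + 1) * n / 2 ^ r ≤ 1 / 2 := by
    have h1 := hN (r + 1) (by omega)
    have h2 : ((r + 1 : ℕ) : ℝ) ^ (k + 1) < 1 / 4 * √2 ^ (r + 1) := by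
      rwa [div_lt_iff₀ (by positivity)] at h1
    push_cast at h2
    rw [div_le_iff₀ (by positivity), ← hsq]
    have h3 : √2 ≤ 2 := by
      rw [Real.sqrt_le_left (by norm_num)]; norm_num
    have h4 : ((r : ℝ) + 1) ^ (k + 1) ≤ 1 / 2 * √2 ^ r := by
      rw [pow_succ (√2) r] at h2
      nlinarith
    calc ((r : ℝ) + 1) ^ (k + 1) * n ≤ (1 / 2 * √2 ^ r) * √2 ^ r :=
          mul_le_mul h4 hn2 (by positivity) (by positivity)
      _ = 1 / 2 * (√2 ^ r * √2 ^ r) := by ring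
  have hpart2 : (((r + a).choose r : ℕ) : ℝ) *
      ((((n - r).choose a : ℕ) : ℝ) * ((Bs r k : ℕ) : ℝ) ^ a / (2 ^ r) ^ a) ≤ 1 / 2 := by
    have h1 : (((r + a).choose r : ℕ) : ℝ) ≤ ((r : ℝ) + 1) ^ a := by
      exact_mod_cast choose_add_le r a
    have h2 : (((n - r).choose a : ℕ) : ℝ) ≤ (n : ℝ) ^ a := by
      have h10 := Nat.choose_le_pow (n - r) a
      have h11 : (n - r) ^ a ≤ n ^ a := Nat.pow_le_pow_left (Nat.sub_le _ _) _
      exact_mod_cast h10.trans h11
    have h3 : ((Bs r k : ℕ) : ℝ) ≤ ((r : ℝ) + 1) ^ k := by exact_mod_cast hB1 r k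
    have h4 : ((Bs r k : ℕ) : ℝ) ^ a ≤ (((r : ℝ) + 1) ^ k) ^ a :=
      pow_le_pow_left₀ (by positivity) h3 a
    calc (((r + a).choose r : ℕ) : ℝ) *
        ((((n - r).choose a : ℕ) : ℝ) * ((Bs r k : ℕ) : ℝ) ^ a / (2 ^ r) ^ a)
        ≤ ((r : ℝ) + 1) ^ a * ((n : ℝ) ^ a * (((r : ℝ) + 1) ^ k) ^ a / (2 ^ r) ^ a) := by
          apply mul_le_mul h1 _ (by positivity) (by positivity)
          apply div_le_div_of_nonneg_right _ (by positivity)
          exact mul_le_mul h2 h4 (by positivity) (by positivity)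
      _ = (((r : ℝ) + 1) ^ (k + 1) * n / 2 ^ r) ^ a := by
          rw [div_pow, mul_pow, pow_succ, mul_pow]
          ring
      _ ≤ (1 / 2) ^ a := pow_le_pow_left₀ (by positivity) hbase a
      _ ≤ (1 / 2) ^ 1 := pow_le_pow_of_le_one (by norm_num) (by norm_num) ha
      _ = 1 / 2 := pow_one _
  unfold qr
  rw [mul_add]
  linarith

end Pool.Agent.E8helper87.SI
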