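import Pool.Agent.E8helper61.SI.Stm3

/-!
# SI3 / SYM (helper87)
-/

set_option autoImplicit false

open Finset

namespace Pool.Agent.E8helper87.SI

open Pool.Agent.E8helper61.SI

lemma sum_powersetCard_prod_le {ι : Type} [DecidableEq ι] (p : ι → ℝ) (hp : ∀ i, 0 ≤ p i)
    (T : Finset ι) :
    ∀ m : ℕ, ∑ U ∈ T.powersetCard m, ∏ i ∈ U, p i ≤ (∑ i ∈ T, p i) ^ m := by
  induction T using Finset.induction_on with
  | empty =>
    intro m
    rcases m with _ | m
    · simp
    · rw [powersetCard_eq_empty.2 (by simp)]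
      simp
  | insert x T hx ih =>
    intro m
    rcases m with _ | m
    · simp
    · rw [powersetCard_succ_insert hx]
      have hdisj : Disjoint (powersetCard (m + 1) T) ((powersetCard m T).image (insert x)) := by
        rw [disjoint_left]
        intro U hU hU'
        obtain ⟨W, _, rfl⟩ := mem_image.1 hU'
        exact hx ((mem_powersetCard.1 hU).1 (mem_insert_self x W))
      have hinj : Set.InjOn (insert x) ((powersetCard m T : Finset (Finset ι)) : Set (Finset ι)) := by
        intro g hg g' hg' h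
        have h1 : x ∉ g := fun h => hx ((mem_powersetCard.1 hg).1 h)
        have h2 : x ∉ g' := fun h => hx ((mem_powersetCard.1 hg').1 h)
        rw [← erase_insert h1, h, erase_insert h2]
      rw [sum_union hdisj, sum_image hinj, sum_insert hx]
      have h1 : ∑ U ∈ powersetCard m T, ∏ i ∈ insert x U, p i
          = p x * ∑ U ∈ powersetCard m T, ∏ i ∈ U, p i := by
        rw [mul_sum]
        refine sum_congr rfl fun U hU => ?_
        exact prod_insert (fun h => hx ((mem_powersetCard.1 hU).1 h))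
      rw [h1]
      set σ := ∑ i ∈ T, p i with hσ
      have hσ0 : 0 ≤ σ := sum_nonneg fun i _ => hp i
      have ih1 := ih (m + 1)
      have ih2 := ih m
      have h2 : p x * ∑ U ∈ powersetCard m T, ∏ i ∈ U, p i ≤ p x * σ ^ m :=
        mul_le_mul_of_nonneg_left ih2 (hp x)
      have h3 : σ ^ m ≤ (p x + σ) ^ m :=
        pow_le_pow_left₀ hσ0 (by linarith [hp x]) m
      have h4 : (p x + σ) ^ (m + 1) = (p x + σ) * (p x + σ) ^ m := by ring
      rw [h4]
      have h5 : σ ^ (m + 1) = σ * σ ^ m := by ring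
      rw [h5] at ih1
      nlinarith [mul_le_mul_of_nonneg_left h3 (add_nonneg (hp x) hσ0)]

/-- a bound for the product of the `g` over `U` -/
theorem prodB {n t : ℕ} (g a : Fin n → ℝ) (κ σ E : ℝ) (hκ : 0 ≤ κ) (hE : 1 ≤ E)
    (hg : ∀ v, 0 ≤ g v ∧ g v ≤ 1 ∧ 0 ≤ a v ∧ g v ≤ 12 * a v ∧
      (g v) ^ 2 ≤ E * Real.exp (-(κ * (1 - a v))))
    (hsum : ∑ v, a v ≤ t + σ) (U0 U : Finset (Fin n)) (hU : U.card = t) (hU0 : U0.card = t)
    (hex : ∀ v ∈ U0, ∀ w ∉ U0, a w ≤ a v) (hi : 1 ≤ (U \ U0).card)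
    (h2 : 2 * σ ≤ ((U \ U0).card : ℝ)) :
    ∏ v ∈ U, g v ≤ E ^ t * Real.exp (-(κ * ((U \ U0).card : ℝ) / 8)) := by
  classical
  set i := (U \ U0).card with hi'
  have hcY : (U0 \ U).card = i := by
    have e1 := card_sdiff_add_card_inter U0 U
    have e2 := card_sdiff_add_card_inter U U0
    rw [inter_comm] at e2
    omega
  have hit : i ≤ t := by
    rw [hi', ← hU]
    exact card_le_card sdiff_subset
  have hP0 : 0 ≤ ∏ v ∈ U, g v := prod_nonneg fun v _ => (hg v).1
  have hR0 : 0 ≤ E ^ t * Real.exp (-(κ * (i : ℝ) / 8)) := by positivity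
  have hEt : 1 ≤ E ^ t := one_le_pow₀ hE
  have hE2 : ∀ c : ℕ, c ≤ t → E ^ c ≤ (E ^ t) ^ 2 := by
    intro c hc
    rw [← pow_mul]
    exact pow_le_pow_right₀ hE (by omega)
  have hsq : (E ^ t * Real.exp (-(κ * (i : ℝ) / 8))) ^ 2 =
      (E ^ t) ^ 2 * Real.exp (-(κ * (i : ℝ) / 4)) := by
    rw [mul_pow, ← Real.exp_nat_mul]
    congr 2
    push_cast
    ring
  apply le_of_sq_le_sq _ hR0
  rw [hsq]
  by_cases hb : ∃ w, w ∉ U0 ∧ 3 / 4 ≤ a w
  · obtain ⟨w, hw, hw2⟩ := hb
    have hY : ∀ y ∈ U0 \ U, 3 / 4 ≤ a y := fun y hy =>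
      hw2.trans (hex y (mem_sdiff.1 hy).1 w hw)
    have hSY : 3 / 4 * (i : ℝ) ≤ ∑ y ∈ U0 \ U, a y := by
      rw [← hcY]
      calc 3 / 4 * ((U0 \ U).card : ℝ) = ∑ y ∈ U0 \ U, (3 / 4 : ℝ) := by
            rw [sum_const, nsmul_eq_mul]; ring
        _ ≤ _ := sum_le_sum hY
    have hSU : ∑ v ∈ U, a v + ∑ y ∈ U0 \ U, a y ≤ t + σ := by
      rw [← sum_union disjoint_sdiff]
      exact (sum_le_sum_of_subset_of_nonneg (subset_univ _) fun v _ _ => (hg v).2.2.1).trans hsum
    have h3 : ∀ v ∈ U, (g v) ^ 2 ≤ E * Real.exp (-(κ * max 0 (1 - a v))) := by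
      intro v _
      obtain ⟨g1, g2, g3, g4, g5⟩ := hg v
      rcases le_total 0 (1 - a v) with h | h
      · rw [max_eq_right h]; exact g5
      · rw [max_eq_left h, mul_zero, neg_zero, Real.exp_zero, mul_one]
        nlinarith
    calc (∏ v ∈ U, g v) ^ 2 = ∏ v ∈ U, (g v) ^ 2 := (prod_pow _ _ _).symm
      _ ≤ ∏ v ∈ U, (E * Real.exp (-(κ * max 0 (1 - a v)))) :=
          prod_le_prod (fun v _ => sq_nonneg _) h3
      _ = E ^ t * Real.exp (∑ v ∈ U, -(κ * max 0 (1 - a v))) := by
          rw [prod_mul_distrib, prod_const, hU, Real.exp_sum]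
      _ ≤ (E ^ t) ^ 2 * Real.exp (-(κ * (i : ℝ) / 4)) := by
          apply mul_le_mul (hE2 t le_rfl) _ (Real.exp_pos _).le (by positivity)
          apply Real.exp_le_exp.2
          have h5 : ∑ v ∈ U, (1 - a v) ≤ ∑ v ∈ U, max 0 (1 - a v) :=
            sum_le_sum fun v _ => le_max_right _ _
          have h6 : ∑ v ∈ U, (1 - a v) = t - ∑ v ∈ U, a v := by
            rw [sum_sub_distrib, sum_const, hU, nsmul_eq_mul, mul_one]
          have h7 : (i : ℝ) / 4 ≤ ∑ v ∈ U, max 0 (1 - a v) := by linarith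
          have h8 : ∑ v ∈ U, -(κ * max 0 (1 - a v)) = -(κ * ∑ v ∈ U, max 0 (1 - a v)) := by
            rw [sum_neg_distrib, mul_sum]
          rw [h8]
          have := mul_le_mul_of_nonneg_left h7 hκ
          linarith
  · push Not at hb
    have h3 : ∀ x ∈ U \ U0, (g x) ^ 2 ≤ E * Real.exp (-(κ / 4)) := by
      intro x hx
      obtain ⟨g1, g2, g3, g4, g5⟩ := hg x
      refine g5.trans (mul_le_mul_of_nonneg_left (Real.exp_le_exp.2 ?_) (by linarith))
      have := hb x (mem_sdiff.1 hx).2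
      nlinarith
    have h4 : (∏ v ∈ U, g v) ≤ ∏ x ∈ U \ U0, g x := by
      rw [← prod_sdiff (s₁ := U \ U0) (s₂ := U) sdiff_subset]
      have : ∏ x ∈ U \ (U \ U0), g x ≤ 1 := prod_le_one (fun v _ => (hg v).1) fun v _ => (hg v).2.1
      have h0 : 0 ≤ ∏ x ∈ U \ U0, g x := prod_nonneg fun v _ => (hg v).1
      nlinarith
    calc (∏ v ∈ U, g v) ^ 2 ≤ (∏ x ∈ U \ U0, g x) ^ 2 := pow_le_pow_left₀ hP0 h4 2
      _ = ∏ x ∈ U \ U0, (g x) ^ 2 := (prod_pow _ _ _).symm
      _ ≤ ∏ x ∈ U \ U0, (E * Real.exp (-(κ / 4))) := prod_le_prod (fun v _ => sq_nonneg _) h3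
      _ = E ^ i * Real.exp (-(κ * (i : ℝ) / 4)) := by
          rw [prod_const, mul_pow, ← Real.exp_nat_mul, ← hi']
          congr 2
          ring
      _ ≤ (E ^ t) ^ 2 * Real.exp (-(κ * (i : ℝ) / 4)) :=
          mul_le_mul_of_nonneg_right (hE2 i hit) (Real.exp_pos _).le

theorem sym : SymStatement := by
  classical
  intro n t g a κ σ E ht hκ hσ hE hg hsum
  set B : ℕ → ℝ := fun i => if 2 * σ ≤ i then E ^ t * Real.exp (-(κ * i / 8)) else 1 with hB
  have hB0 : ∀ i, 0 ≤ B i := by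
    intro i
    rw [hB]
    dsimp only
    split_ifs
    · positivity
    · norm_num
  have hR0 : ∀ i, 0 ≤ (12 * (t : ℝ) * (t + σ)) ^ i * B i := fun i =>
    mul_nonneg (by positivity) (hB0 i)
  by_cases hne : ((univ : Finset (Fin n)).powersetCard t).Nonempty
  swap
  · rw [not_nonempty_iff_eq_empty] at hne
    rw [hne, sum_empty]
    have := sum_nonneg fun i (_ : i ∈ Icc 1 t) => hR0 i
    linarith
  obtain ⟨U0, hU0, hmax⟩ := exists_max_image _ (fun U => ∑ v ∈ U, a v) hne
  rw [mem_powersetCard_univ] at hU0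
  have hex : ∀ v ∈ U0, ∀ w ∉ U0, a w ≤ a v := by
    intro v hv w hw
    have h1 := hmax (insert w (U0.erase v)) (by
      rw [mem_powersetCard_univ, card_insert_of_notMem (fun h => hw (mem_of_mem_erase h)),
        card_erase_of_mem hv, hU0]
      omega)
    rw [sum_insert (fun h => hw (mem_of_mem_erase h))] at h1
    have h2 := add_sum_erase U0 a hv
    linarith
  have hgroup : ∑ U ∈ (univ : Finset (Fin n)).powersetCard t, ∏ v ∈ U, (g v) ^ 2 =
      ∑ i ∈ range (t + 1), ∑ U ∈ ((univ : Finset (Fin n)).powersetCard t).filter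
        (fun U => (U \ U0).card = i), ∏ v ∈ U, (g v) ^ 2 := by
    rw [sum_fiberwise_of_maps_to]
    intro U hU
    rw [mem_powersetCard_univ] at hU
    rw [mem_range]
    have := card_le_card (sdiff_subset : U \ U0 ⊆ U)
    omega
  have hterm0 : ∑ U ∈ ((univ : Finset (Fin n)).powersetCard t).filter
        (fun U => (U \ U0).card = 0), ∏ v ∈ U, (g v) ^ 2 ≤ 1 := by
    have h1 : ((univ : Finset (Fin n)).powersetCard t).filter (fun U => (U \ U0).card = 0) ⊆ {U0} := by
      intro U hU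
      rw [mem_filter, mem_powersetCard_univ, card_eq_zero, sdiff_eq_empty_iff_subset] at hU
      rw [mem_singleton]
      exact eq_of_subset_of_card_le hU.2 (by omega)
    refine (sum_le_sum_of_subset_of_nonneg h1 fun U _ _ => prod_nonneg fun v _ => sq_nonneg _).trans ?_
    rw [sum_singleton]
    exact prod_le_one (fun v _ => sq_nonneg _) fun v _ => pow_le_one₀ (hg v).1 (hg v).2.1
  have hterm : ∀ i ∈ Icc 1 t, ∑ U ∈ ((univ : Finset (Fin n)).powersetCard t).filter
        (fun U => (U \ U0).card = i), ∏ v ∈ U, (g v) ^ 2 ≤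
        (12 * (t : ℝ) * (t + σ)) ^ i * B i := by
    intro i hi
    rw [mem_Icc] at hi
    have h1 : ∀ U ∈ ((univ : Finset (Fin n)).powersetCard t).filter (fun U => (U \ U0).card = i),
        ∏ v ∈ U, (g v) ^ 2 ≤ (∏ x ∈ U \ U0, 12 * a x) * B i := by
      intro U hU
      rw [mem_filter, mem_powersetCard_univ] at hU
      have h2 : ∏ v ∈ U, (g v) ^ 2 = (∏ v ∈ U, g v) * ∏ v ∈ U, g v := by
        rw [← prod_mul_distrib]
        exact prod_congr rfl fun v _ => sq _
      rw [h2]
      have h3 : ∏ v ∈ U, g v ≤ ∏ x ∈ U \ U0, 12 * a x := by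
        rw [← prod_sdiff (s₁ := U \ U0) (s₂ := U) sdiff_subset]
        have e1 : ∏ x ∈ U \ (U \ U0), g x ≤ 1 :=
          prod_le_one (fun v _ => (hg v).1) fun v _ => (hg v).2.1
        have e2 : 0 ≤ ∏ x ∈ U \ U0, g x := prod_nonneg fun v _ => (hg v).1
        have e3 : ∏ x ∈ U \ U0, g x ≤ ∏ x ∈ U \ U0, 12 * a x :=
          prod_le_prod (fun v _ => (hg v).1) fun v _ => (hg v).2.2.2.1
        nlinarith
      have h4 : ∏ v ∈ U, g v ≤ B i := by
        rw [hB]
        dsimp only
        split_ifs with h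
        · have := prodB g a κ σ E hκ hE hg hsum U0 U hU.1 hU0 hex (by rw [hU.2]; exact hi.1)
            (by rw [hU.2]; exact h)
          rwa [hU.2] at this
        · exact prod_le_one (fun v _ => (hg v).1) fun v _ => (hg v).2.1
      exact mul_le_mul h3 h4 (prod_nonneg fun v _ => (hg v).1)
        (prod_nonneg fun v _ => by have := (hg v).2.2.1; linarith)
    refine (sum_le_sum h1).trans ?_
    rw [← sum_mul]
    apply mul_le_mul_of_nonneg_right _ (hB0 i)
    -- injection
    let φ : Finset (Fin n) → Finset (Fin n) × Finset (Fin n) := fun U => (U \ U0, U0 \ U)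
    have hinj : Set.InjOn φ ((((univ : Finset (Fin n)).powersetCard t).filter
        (fun U => (U \ U0).card = i) : Finset (Finset (Fin n))) : Set (Finset (Fin n))) := by
      intro U _ U' _ h
      have e1 : U \ U0 = U' \ U0 := congrArg Prod.fst h
      have e2 : U0 \ U = U0 \ U' := congrArg Prod.snd h
      ext v
      by_cases hv : v ∈ U0
      · have := Finset.ext_iff.1 e2 v
        rw [mem_sdiff, mem_sdiff] at this
        tauto
      · have := Finset.ext_iff.1 e1 v
        rw [mem_sdiff, mem_sdiff] at this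
        tauto
    have h5 : ∑ U ∈ ((univ : Finset (Fin n)).powersetCard t).filter
        (fun U => (U \ U0).card = i), ∏ x ∈ U \ U0, 12 * a x =
        ∑ p ∈ (((univ : Finset (Fin n)).powersetCard t).filter
        (fun U => (U \ U0).card = i)).image φ, ∏ x ∈ p.1, 12 * a x := by
      rw [sum_image hinj]
    rw [h5]
    have h6 : (((univ : Finset (Fin n)).powersetCard t).filter
        (fun U => (U \ U0).card = i)).image φ ⊆
        ((univ : Finset (Fin n)).powersetCard i) ×ˢ (U0.powersetCard i) := by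
      intro p hp
      obtain ⟨U, hU, rfl⟩ := mem_image.1 hp
      rw [mem_filter, mem_powersetCard_univ] at hU
      rw [mem_product, mem_powersetCard_univ, mem_powersetCard]
      refine ⟨hU.2, sdiff_subset, ?_⟩
      change (U0 \ U).card = i
      have e1 := card_sdiff_add_card_inter U0 U
      have e2 := card_sdiff_add_card_inter U U0
      rw [inter_comm] at e2
      omega
    have ha0 : ∀ v, 0 ≤ 12 * a v := fun v => by have := (hg v).2.2.1; linarith
    refine (sum_le_sum_of_subset_of_nonneg h6 fun p _ _ => prod_nonneg fun v _ => ha0 v).trans ?_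
    rw [sum_product]
    simp only [sum_const, card_powersetCard, hU0, nsmul_eq_mul]
    rw [← mul_sum]
    have h7 := sum_powersetCard_prod_le (fun v => 12 * a v) ha0 univ i
    have h8 : ∑ v, 12 * a v ≤ 12 * (t + σ) := by
      rw [← mul_sum]; linarith
    have h9 : (∑ v, 12 * a v) ^ i ≤ (12 * (t + σ)) ^ i :=
      pow_le_pow_left₀ (sum_nonneg fun v _ => ha0 v) h8 i
    have h10 : ((t.choose i : ℕ) : ℝ) ≤ (t : ℝ) ^ i := by
      exact_mod_cast Nat.choose_le_pow t i
    calc ((t.choose i : ℕ) : ℝ) * ∑ U ∈ (univ : Finset (Fin n)).powersetCard i, ∏ x ∈ U, 12 * a x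
        ≤ (t : ℝ) ^ i * (12 * (t + σ)) ^ i :=
          mul_le_mul h10 (h7.trans h9) (sum_nonneg fun U _ => prod_nonneg fun v _ => ha0 v)
            (by positivity)
      _ = (12 * (t : ℝ) * (t + σ)) ^ i := by rw [← mul_pow]; congr 1; ring
  rw [hgroup, sum_range_eq_add_Ico _ (by omega)]
  have hIco : Ico 1 (t + 1) = Icc 1 t := by
    ext i; rw [mem_Ico, mem_Icc]; omega
  rw [hIco]
  exact add_le_add hterm0 (sum_le_sum hterm)

end Pool.Agent.E8helper87.SI
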